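import Pool.Agent.H972Z.SumMain

set_option autoImplicit false

namespace Pool.Agent.Results.MP_daf980_lc.NPHard

open Pool.Agent.NPC Pool.Agent.H972Z.SumNP

/-- SUM NUMBER is NP-hard under polynomial-time many-one reductions. -/
theorem result : NPHardP SumNumber :=
  npHard

end Pool.Agent.Results.MP_daf980_lc.NPHard
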